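import Pool.Agent.Helper40.PR.Defs

/-!
Spectral radius toolkit (offer PR-TK4A, MP_339e9c_an).
-/

namespace PR

open ContinuousLinearMap Polynomial
open scoped Pointwise

section sr

variable {X : Type*} [NormedAddCommGroup X] [NormedSpace ℂ X] [CompleteSpace X]
variable {Y : Type*} [NormedAddCommGroup Y] [NormedSpace ℂ Y] [CompleteSpace Y]

theorem sr_ne_top (T : X →L[ℂ] X) : spectralRadius ℂ T ≠ ⊤ := by
  refine ne_top_of_le_ne_top ?_ (spectrum.spectralRadius_le_pow_nnnorm_pow_one_div ℂ T 0)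
  refine ENNReal.mul_ne_top ?_ ?_
  · exact ENNReal.rpow_ne_top_of_nonneg (by simp) ENNReal.coe_ne_top
  · exact ENNReal.rpow_ne_top_of_nonneg (by simp) ENNReal.coe_ne_top

theorem sr_eq_iff {T : X →L[ℂ] X} {S : Y →L[ℂ] Y} :
    sr T = sr S ↔ spectralRadius ℂ T = spectralRadius ℂ S :=
  ENNReal.toReal_eq_toReal_iff' (sr_ne_top T) (sr_ne_top S)

theorem sr_nonneg (T : X →L[ℂ] X) : 0 ≤ sr T := ENNReal.toReal_nonneg

/-- Elements of the spectrum are bounded by the spectral radius. -/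
theorem norm_le_sr_of_mem {T : X →L[ℂ] X} {l : ℂ} (hl : l ∈ spectrum ℂ T) : ‖l‖ ≤ sr T := by
  have h1 : (‖l‖₊ : ENNReal) ≤ spectralRadius ℂ T :=
    le_iSup₂ (f := fun (k : ℂ) (_ : k ∈ spectrum ℂ T) => (‖k‖₊ : ENNReal)) l hl
  have h2 := (ENNReal.toReal_le_toReal ENNReal.coe_ne_top (sr_ne_top T)).2 h1
  simpa [sr] using h2

/-- An upper bound for the spectral radius. -/
theorem sr_le {T : X →L[ℂ] X} {r : ℝ} (hr : 0 ≤ r) (h : ∀ l ∈ spectrum ℂ T, ‖l‖ ≤ r) :
    sr T ≤ r := by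
  refine ENNReal.toReal_le_of_le_ofReal hr (iSup₂_le fun l hl => ?_)
  rw [← ENNReal.ofReal_coe_nnreal]
  exact ENNReal.ofReal_le_ofReal (h l hl)

theorem sr_zero : sr (0 : X →L[ℂ] X) = 0 := by
  rw [sr, spectrum.spectralRadius_zero, ENNReal.toReal_zero]

theorem sr_smul (c : ℂ) (T : X →L[ℂ] X) : sr (c • T) = ‖c‖ * sr T := by
  rcases eq_or_ne c 0 with rfl | hc
  · rw [zero_smul, sr_zero, norm_zero, zero_mul]
  have hs : spectrum ℂ (c • T) = (Units.mk0 c hc) • spectrum ℂ T :=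
    spectrum.unit_smul_eq_smul T (Units.mk0 c hc)
  have hc0 : 0 < ‖c‖ := norm_pos_iff.2 hc
  apply le_antisymm
  · refine sr_le (mul_nonneg (norm_nonneg _) (sr_nonneg _)) fun l hl => ?_
    rw [hs, Set.mem_smul_set] at hl
    obtain ⟨m, hm, rfl⟩ := hl
    rw [Units.smul_mk0, norm_smul]
    exact mul_le_mul_of_nonneg_left (norm_le_sr_of_mem hm) (norm_nonneg _)
  · rw [← le_div_iff₀' hc0]
    refine sr_le (div_nonneg (sr_nonneg _) hc0.le) fun m hm => ?_
    rw [le_div_iff₀' hc0, ← norm_smul]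
    refine norm_le_sr_of_mem ?_
    rw [hs, Set.mem_smul_set]
    exact ⟨m, hm, rfl⟩

theorem sr_neg (T : X →L[ℂ] X) : sr (-T) = sr T := by
  have h := sr_smul (-1) T
  rwa [neg_one_smul, norm_neg, norm_one, one_mul] at h

theorem sr_comm_le (A B : X →L[ℂ] X) : sr (A * B) ≤ sr (B * A) := by
  refine sr_le (sr_nonneg _) fun l hl => ?_
  rcases eq_or_ne l 0 with rfl | h0
  · rw [norm_zero]; exact sr_nonneg _
  · have h1 : l ∈ spectrum ℂ (A * B) \ {0} := ⟨hl, h0⟩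
    rw [spectrum.nonzero_mul_comm] at h1
    exact norm_le_sr_of_mem h1.1

theorem sr_comm (A B : X →L[ℂ] X) : sr (A * B) = sr (B * A) :=
  le_antisymm (sr_comm_le A B) (sr_comm_le B A)

theorem sr_pow (T : X →L[ℂ] X) {n : ℕ} (hn : n ≠ 0) : sr (T ^ n) = sr T ^ n := by
  have hs := spectrum.map_pow_of_pos (𝕜 := ℂ) T (Nat.pos_of_ne_zero hn)
  apply le_antisymm
  · refine sr_le (pow_nonneg (sr_nonneg _) _) fun l hl => ?_
    rw [hs] at hl
    obtain ⟨m, hm, rfl⟩ := hl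
    rw [norm_pow]
    exact pow_le_pow_left₀ (norm_nonneg _) (norm_le_sr_of_mem hm) n
  · have h1 : sr T ≤ sr (T ^ n) ^ ((n : ℝ)⁻¹) := by
      refine sr_le (Real.rpow_nonneg (sr_nonneg _) _) fun m hm => ?_
      rw [← Real.pow_rpow_inv_natCast (norm_nonneg m) hn]
      refine Real.rpow_le_rpow (pow_nonneg (norm_nonneg _) _) ?_ (by positivity)
      rw [← norm_pow]
      refine norm_le_sr_of_mem ?_
      rw [hs]
      exact ⟨m, hm, rfl⟩
    calc sr T ^ n ≤ (sr (T ^ n) ^ ((n : ℝ)⁻¹)) ^ n := pow_le_pow_left₀ (sr_nonneg _) h1 n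
      _ = sr (T ^ n) := Real.rpow_inv_natCast_pow (sr_nonneg _) hn

/-- Eigenvalues are bounded by the spectral radius. -/
theorem norm_le_sr {T : X →L[ℂ] X} {v : X} {l : ℂ} (hv : v ≠ 0) (h : T v = l • v) :
    ‖l‖ ≤ sr T := by
  refine norm_le_sr_of_mem ?_
  rw [spectrum.mem_iff]
  intro hu
  obtain ⟨B, hB⟩ := hu.exists_left_inv
  have h1 : (B * (algebraMap ℂ (X →L[ℂ] X) l - T)) v = v := by rw [hB]; rfl
  apply hv
  have h2 : (algebraMap ℂ (X →L[ℂ] X) l - T) v = 0 := by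
    rw [sub_apply, h, ContinuousLinearMap.algebraMap_apply, sub_self]
  rw [← h1]
  change B ((algebraMap ℂ (X →L[ℂ] X) l - T) v) = 0
  rw [h2, map_zero]

theorem sr_scalar [Nontrivial X] (c : ℂ) : sr (c • (1 : X →L[ℂ] X)) = ‖c‖ := by
  obtain ⟨v, hv⟩ := exists_ne (0 : X)
  apply le_antisymm
  · refine sr_le (norm_nonneg _) fun l hl => ?_
    rw [← Algebra.algebraMap_eq_smul_one, spectrum.scalar_eq, Set.mem_singleton_iff] at hl
    rw [hl]
  · exact norm_le_sr hv (by simp)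

/-- similarity by a linear or conjugate linear map -/
theorem sr_conj (A : X ≃L[ℂ] Y) (T : X →L[ℂ] X) (S : Y →L[ℂ] Y)
    (h : ∀ x, S (A x) = A (T x)) : sr S = sr T := by
  have h1 : S = A.conjContinuousAlgEquiv T := by
    ext y
    rw [ContinuousLinearEquiv.conjContinuousAlgEquiv_apply_apply, ← h,
      ContinuousLinearEquiv.apply_symm_apply]
  have h2 : spectrum ℂ S = spectrum ℂ T := by
    rw [h1]
    exact AlgEquiv.spectrum_eq A.conjContinuousAlgEquiv.toAlgEquiv T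
  rw [sr, sr, spectralRadius, spectralRadius, h2]

omit [CompleteSpace X] [CompleteSpace Y] in
theorem mem_spectrum_star (A : X ≃SL[starRingEnd ℂ] Y) (T : X →L[ℂ] X) (S : Y →L[ℂ] Y)
    (h : ∀ x, S (A x) = A (T x)) {l : ℂ} (hl : l ∈ spectrum ℂ S) :
    (starRingEnd ℂ) l ∈ spectrum ℂ T := by
  rw [spectrum.mem_iff] at hl ⊢
  intro hu
  apply hl
  obtain ⟨B, hB⟩ := hu
  set B' : X →L[ℂ] X := ((B⁻¹ : (X →L[ℂ] X)ˣ) : X →L[ℂ] X) with hB'
  have e1 : ∀ x, B' ((starRingEnd ℂ) l • x - T x) = x := by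
    intro x
    have h1 : B' * (algebraMap ℂ (X →L[ℂ] X) ((starRingEnd ℂ) l) - T) = 1 := by
      rw [← hB]; exact B.inv_mul
    have h2 := congrArg (fun Z : X →L[ℂ] X => Z x) h1
    simpa [ContinuousLinearMap.algebraMap_apply] using h2
  have e2 : ∀ x, (starRingEnd ℂ) l • B' x - T (B' x) = x := by
    intro x
    have h1 : (algebraMap ℂ (X →L[ℂ] X) ((starRingEnd ℂ) l) - T) * B' = 1 := by
      rw [← hB]; exact B.mul_inv
    have h2 := congrArg (fun Z : X →L[ℂ] X => Z x) h1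
    simpa [ContinuousLinearMap.algebraMap_apply] using h2
  let D : Y →L[ℂ] Y :=
    { toFun := fun y => A (B' (A.symm y))
      map_add' := fun y z => by simp
      map_smul' := fun c y => by simp [map_smulₛₗ]
      cont := by fun_prop }
  have hD : ∀ y, D y = A (B' (A.symm y)) := fun y => rfl
  have hS : ∀ y, S y = A (T (A.symm y)) := fun y => by
    rw [← h, ContinuousLinearEquiv.apply_symm_apply]
  have hsm : ∀ x, l • A x = A ((starRingEnd ℂ) l • x) := fun x => by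
    rw [map_smulₛₗ, Complex.conj_conj]
  refine ⟨⟨algebraMap ℂ (Y →L[ℂ] Y) l - S, D, ?_, ?_⟩, rfl⟩
  · ext y
    change (algebraMap ℂ (Y →L[ℂ] Y) l - S) (D y) = y
    rw [sub_apply, ContinuousLinearMap.algebraMap_apply, hS, hD,
      ContinuousLinearEquiv.symm_apply_apply, hsm, ← map_sub, e2,
      ContinuousLinearEquiv.apply_symm_apply]
  · ext y
    obtain ⟨x, rfl⟩ := A.surjective y
    change D ((algebraMap ℂ (Y →L[ℂ] Y) l - S) (A x)) = A x
    rw [sub_apply, ContinuousLinearMap.algebraMap_apply, hD, h, hsm, ← map_sub,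
      ContinuousLinearEquiv.symm_apply_apply, e1]

theorem sr_conj_star (A : X ≃SL[starRingEnd ℂ] Y) (T : X →L[ℂ] X) (S : Y →L[ℂ] Y)
    (h : ∀ x, S (A x) = A (T x)) : sr S = sr T := by
  apply le_antisymm
  · refine sr_le (sr_nonneg _) fun l hl => ?_
    rw [← Complex.norm_conj l]
    exact norm_le_sr_of_mem (mem_spectrum_star A T S h hl)
  · refine sr_le (sr_nonneg _) fun l hl => ?_
    rw [← Complex.norm_conj l]
    refine norm_le_sr_of_mem (mem_spectrum_star A.symm S T (fun y => ?_) hl)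
    apply A.injective
    rw [← h, ContinuousLinearEquiv.apply_symm_apply, ContinuousLinearEquiv.apply_symm_apply]

omit [CompleteSpace X] in
theorem norm_adj (T : X →L[ℂ] X) (S : (X →L[ℂ] ℂ) →L[ℂ] (X →L[ℂ] ℂ))
    (h : ∀ f, S f = f.comp T) : ‖S‖ = ‖T‖ := by
  apply le_antisymm
  · refine opNorm_le_bound S (norm_nonneg T) fun f => ?_
    rw [h, mul_comm]
    exact opNorm_comp_le _ _
  · refine opNorm_le_bound T (norm_nonneg S) fun x => ?_
    obtain ⟨g, hg1, hg2⟩ := exists_dual_vector'' ℂ (T x)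
    have h1 : (S g) x = ‖T x‖ := by rw [h]; exact hg2
    calc ‖T x‖ = ‖(S g) x‖ := by rw [h1]; simp
      _ ≤ ‖S g‖ * ‖x‖ := le_opNorm _ _
      _ ≤ (‖S‖ * ‖g‖) * ‖x‖ := by gcongr; exact le_opNorm S g
      _ ≤ (‖S‖ * 1) * ‖x‖ := by gcongr
      _ = ‖S‖ * ‖x‖ := by rw [mul_one]

omit [CompleteSpace X] in
theorem pow_adj (T : X →L[ℂ] X) (S : (X →L[ℂ] ℂ) →L[ℂ] (X →L[ℂ] ℂ))
    (h : ∀ f, S f = f.comp T) (n : ℕ) (f : X →L[ℂ] ℂ) : (S ^ n) f = f.comp (T ^ n) := by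
  induction n generalizing f with
  | zero => rfl
  | succ n ih =>
    rw [pow_succ]
    change (S ^ n) (S f) = _
    rw [ih, h, pow_succ']
    rfl

/-- the spectral radius of the Banach adjoint -/
theorem sr_dual (T : X →L[ℂ] X) (S : (X →L[ℂ] ℂ) →L[ℂ] (X →L[ℂ] ℂ))
    (h : ∀ f, S f = f.comp T) : sr S = sr T := by
  have h1 := spectrum.pow_norm_pow_one_div_tendsto_nhds_spectralRadius S
  have h2 := spectrum.pow_norm_pow_one_div_tendsto_nhds_spectralRadius T
  have h3 : ∀ n, ‖S ^ n‖ = ‖T ^ n‖ := fun n => norm_adj _ _ (pow_adj T S h n)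
  simp only [h3] at h1
  rw [sr, sr, tendsto_nhds_unique h1 h2]

end sr

end PR
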