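import Pool.Agent.Helper40.PR.Defs3

/-!
Offer PR-E2 (MP_339e9c_an): self-adjoint operators with maximal commutant.
-/

namespace PR

open ContinuousLinearMap InnerProductSpace Complex

open scoped ComplexConjugate

section e

variable {H : Type*} [NormedAddCommGroup H] [InnerProductSpace ℂ H] [CompleteSpace H]

/-- A self-adjoint operator for which all vectors of a subspace are eigenvectors is a real scalar
there. -/
theorem real_scalar_on {R : H →L[ℂ] H} (hR : IsSelfAdjoint R) (V : Submodule ℂ H)
    (h : ∀ y ∈ V, ∃ c : ℂ, R y = c • y) : ∃ l : ℝ, ∀ y ∈ V, R y = (l : ℂ) • y := by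
  have hinv : ∀ y ∈ V, (R : H →ₗ[ℂ] H) y ∈ V := by
    intro y hy
    obtain ⟨c, hc⟩ := h y hy
    rw [ContinuousLinearMap.coe_coe, hc]
    exact V.smul_mem _ hy
  obtain ⟨a, ha⟩ := LinearMap.exists_eq_smul_id_of_forall_notLinearIndependent
    (f := (R : H →ₗ[ℂ] H).restrict hinv) (by
      intro v hli
      obtain ⟨c, hc⟩ := h v v.2
      have h1 := (LinearIndependent.pair_iff.1 hli) c (-1) (by
        apply Subtype.ext
        rw [Submodule.coe_add, Submodule.coe_smul, Submodule.coe_smul, LinearMap.coe_restrict_apply,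
          ContinuousLinearMap.coe_coe, hc, neg_smul, one_smul, add_neg_cancel]
        rfl)
      exact (neg_ne_zero.2 one_ne_zero) h1.2)
  have ha' : ∀ y ∈ V, R y = a • y := by
    intro y hy
    have h1 := LinearMap.congr_fun ha ⟨y, hy⟩
    have h2 := congrArg (Subtype.val) h1
    simpa using h2
  by_cases hV : ∃ y ∈ V, y ≠ 0
  · obtain ⟨y, hy, hy0⟩ := hV
    have h1 : inner ℂ (R y) y = inner ℂ y (R y) := by
      rw [← adjoint_inner_right, hR.adjoint_eq]
    rw [ha' y hy, inner_smul_left, inner_smul_right] at h1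
    have h2 : inner ℂ y y ≠ 0 := inner_self_ne_zero.2 hy0
    have h3 : conj a = a := mul_right_cancel₀ h2 h1
    refine ⟨a.re, fun z hz => ?_⟩
    rw [ha' z hz]
    congr 1
    exact (Complex.conj_eq_iff_re.1 h3).symm
  · push Not at hV
    refine ⟨0, fun z hz => ?_⟩
    rw [hV z hz, map_zero, smul_zero]

omit [CompleteSpace H] in
theorem eigen_of_commute_po {R : H →L[ℂ] H} {y : H} (h : Commute (po y y) R) :
    ∃ c : ℂ, R y = c • y := by
  by_cases hy : y = 0
  · exact ⟨0, by rw [hy, map_zero, smul_zero]⟩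
  have h1 := congrArg (fun Z : H →L[ℂ] H => Z y) h.eq
  change inner ℂ y (R y) • y = R (inner ℂ y y • y) at h1
  rw [map_smul] at h1
  have h2 : inner ℂ y y ≠ 0 := inner_self_ne_zero.2 hy
  refine ⟨(inner ℂ y y)⁻¹ * inner ℂ y (R y), ?_⟩
  rw [mul_smul, h1, smul_smul, inv_mul_cancel₀ h2, one_smul]

theorem commute_po_of_zero {R : H →L[ℂ] H} (hR : IsSelfAdjoint R) {y : H} (h : R y = 0) :
    Commute (po y y) R := by
  ext z
  change inner ℂ y (R z) • y = R (inner ℂ y z • y)
  rw [map_smul, h, smul_zero, ← adjoint_inner_left, hR.adjoint_eq, h, inner_zero_left, zero_smul]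

theorem isSelfAdjoint_po (y : H) : IsSelfAdjoint (po y y) := by
  rw [ContinuousLinearMap.isSelfAdjoint_iff_isSymmetric]
  intro u v
  change inner ℂ (inner ℂ y u • y) v = inner ℂ u (inner ℂ y v • y)
  rw [inner_smul_left, inner_smul_right, inner_conj_symm]
  ring

theorem two_valued {S : H →L[ℂ] H} (hS : IsSelfAdjoint S) (hns : ¬ RealScalar S)
    (hmax : ∀ R : H →L[ℂ] H, IsSelfAdjoint R →
      (∀ Z : H →L[ℂ] H, IsSelfAdjoint Z → Commute Z S → Commute Z R) →
      RealScalar R ∨ (∀ Z : H →L[ℂ] H, IsSelfAdjoint Z → Commute Z R → Commute Z S)) :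
    ∃ (Q : H →L[ℂ] H) (α β : ℝ), IsSelfAdjoint Q ∧ Q * Q = Q ∧ α ≠ 0 ∧
      S = (α : ℂ) • Q + (β : ℂ) • (1 : H →L[ℂ] H) := by
  have halg : ∀ t : ℝ, algebraMap ℝ (H →L[ℂ] H) t = (t : ℂ) • (1 : H →L[ℂ] H) := by
    intro t
    rw [Algebra.algebraMap_eq_smul_one]
    ext z
    simp
  -- two points of the spectrum
  obtain ⟨p, hp, q, hq, hpq⟩ : ∃ p ∈ spectrum ℝ S, ∃ q ∈ spectrum ℝ S, p < q := by
    by_contra hne
    push Not at hne
    apply hns
    by_cases hemp : ∃ p, p ∈ spectrum ℝ S
    · obtain ⟨p, hp⟩ := hemp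
      refine ⟨p, ?_⟩
      have h1 : cfc (fun x : ℝ => x) S = cfc (fun _ : ℝ => p) S := by
        apply cfc_congr
        intro x hx
        exact le_antisymm (hne p hp x hx) (hne x hx p hp)
      rw [cfc_id' ℝ S, cfc_const p S, halg] at h1
      exact h1
    · push Not at hemp
      refine ⟨0, ?_⟩
      have h1 : cfc (fun x : ℝ => x) S = cfc (fun _ : ℝ => (0 : ℝ)) S := by
        apply cfc_congr
        intro x hx
        exact absurd hx (hemp x)
      rw [cfc_id' ℝ S, cfc_const 0 S, halg] at h1
      exact h1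
  -- no third point
  have key : ∀ a b c : ℝ, a ∈ spectrum ℝ S → b ∈ spectrum ℝ S → c ∈ spectrum ℝ S → ∀ m,
      (a - m) * (b - m) < 0 → (a - m) * (c - m) < 0 → b = c := by
    intro a b c ha hb hc m hab hac
    have ham : 0 < (a - m) * (a - m) := by
      apply mul_self_pos.2
      rintro h0
      rw [h0, zero_mul] at hab
      exact lt_irrefl _ hab
    set f : ℝ → ℝ := fun x => max ((a - m) * (x - m)) 0 with hf
    set g : ℝ → ℝ := fun x => max (-((a - m) * (x - m))) 0 with hg
    have hfc : Continuous f := by fun_prop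
    have hgc : Continuous g := by fun_prop
    have hfa : f a ≠ 0 := by
      rw [hf]; simp only; rw [max_eq_left ham.le]; exact ham.ne'
    have hfb : f b = 0 := by
      rw [hf]; simp only; rw [max_eq_right hab.le]
    have hgb : g b ≠ 0 := by
      rw [hg]; simp only; rw [max_eq_left (by linarith)]; linarith
    have hgcc : g c ≠ 0 := by
      rw [hg]; simp only; rw [max_eq_left (by linarith)]; linarith
    have hfg : ∀ x, f x * g x = 0 := by
      intro x
      rcases le_total 0 ((a - m) * (x - m)) with h | h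
      · rw [hg]; simp only; rw [max_eq_right (by linarith : -((a - m) * (x - m)) ≤ 0), mul_zero]
      · rw [hf]; simp only; rw [max_eq_right h, zero_mul]
    rcases hmax (cfc f S) (cfc_predicate f S)
      (fun Z _ hZ => (Commute.cfc_real hZ.symm f).symm) with h | h
    · exfalso
      obtain ⟨t, ht⟩ := h
      rw [← halg, ← cfc_const t S] at ht
      have h1 := eqOn_of_cfc_eq_cfc ht hfc.continuousOn continuousOn_const hS
      have h2 : f a = t := h1 ha
      have h3 : f b = t := h1 hb
      rw [hfb] at h3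
      exact hfa (h2.trans h3.symm)
    · have h0 : cfc f S * cfc g S = 0 := by
        rw [← cfc_mul f g S hfc.continuousOn hgc.continuousOn]
        simp only [hfg]
        exact cfc_const_zero ℝ S
      obtain ⟨l, hl⟩ := real_scalar_on hS
        (LinearMap.range ((cfc g S : H →L[ℂ] H) : H →ₗ[ℂ] H)) (by
          rintro y ⟨w, rfl⟩
          apply eigen_of_commute_po
          apply h _ (isSelfAdjoint_po _)
          apply commute_po_of_zero (cfc_predicate f S)
          have := congrArg (fun Z : H →L[ℂ] H => Z w) h0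
          exact this)
      have h4 : cfc (fun x => x * g x) S = cfc (fun x => l * g x) S := by
        rw [cfc_mul (fun x => x) g S continuousOn_id hgc.continuousOn,
          cfc_mul (fun _ => l) g S continuousOn_const hgc.continuousOn, cfc_id' ℝ S,
          cfc_const l S, halg]
        ext w
        exact hl _ ⟨w, rfl⟩
      have h5 := eqOn_of_cfc_eq_cfc h4 (by fun_prop) (by fun_prop) hS
      have h6 : b = l := mul_right_cancel₀ hgb (h5 hb)
      have h7 : c = l := mul_right_cancel₀ hgcc (h5 hc)
      rw [h6, h7]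
  have hthree : ∀ r ∈ spectrum ℝ S, r = p ∨ r = q := by
    intro r hr
    rcases lt_trichotomy r q with h | h | h
    · left
      -- `r, p < m < q` or the midpoint between the larger of `r, p` and `q`
      refine (key q p r hq hp hr ((max r p + q) / 2) ?_ ?_).symm
      · have h1 : max r p < q := max_lt h hpq
        have h2 := le_max_right r p
        apply mul_neg_of_pos_of_neg <;> linarith
      · have h1 : max r p < q := max_lt h hpq
        have h2 := le_max_left r p
        apply mul_neg_of_pos_of_neg <;> linarith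
    · exact Or.inr h
    · right
      refine (key p q r hp hq hr ((p + q) / 2) ?_ ?_).symm
      · apply mul_neg_of_neg_of_pos <;> linarith
      · apply mul_neg_of_neg_of_pos <;> linarith
  refine ⟨cfc (fun x : ℝ => (x - p) / (q - p)) S, q - p, p, cfc_predicate _ S, ?_,
    (sub_pos.2 hpq).ne', ?_⟩
  · rw [← cfc_mul _ _ S]
    apply cfc_congr
    intro x hx
    have hqp : q - p ≠ 0 := (sub_pos.2 hpq).ne'
    rcases hthree x hx with rfl | rfl
    · simp
    · simp [div_self hqp]
  · have hqp : q - p ≠ 0 := (sub_pos.2 hpq).ne'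
    have h1 : cfc (fun x : ℝ => x) S = cfc (fun x : ℝ => (q - p) * ((x - p) / (q - p)) + p) S := by
      apply cfc_congr
      intro x _
      simp only
      rw [mul_div_cancel₀ _ hqp]
      ring
    have h2 : cfc (fun x : ℝ => (q - p) * ((x - p) / (q - p)) + p) S =
        algebraMap ℝ (H →L[ℂ] H) (q - p) * cfc (fun x : ℝ => (x - p) / (q - p)) S +
          algebraMap ℝ (H →L[ℂ] H) p := by
      rw [cfc_add (a := S) (fun x : ℝ => (q - p) * ((x - p) / (q - p))) (fun _ => p)
        (by fun_prop) (by fun_prop), cfc_mul (fun _ => q - p) (fun x : ℝ => (x - p) / (q - p)) S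
        (by fun_prop) (by fun_prop), cfc_const _ S, cfc_const _ S]
    rw [cfc_id' ℝ S, h2, halg, halg] at h1
    conv_lhs => rw [h1]
    rw [smul_mul_assoc, one_mul]

/-- The rank one projections have maximal commutant. -/
theorem P_maximal {x : H} (hx : ‖x‖ = 1) {R : H →L[ℂ] H} (hR : IsSelfAdjoint R)
    (h : ∀ Z : H →L[ℂ] H, IsSelfAdjoint Z → Commute Z (po x x) → Commute Z R) :
    ∃ α β : ℝ, R = (α : ℂ) • po x x + (β : ℂ) • (1 : H →L[ℂ] H) := by
  have hxx : inner ℂ x x = (1 : ℂ) := by
    rw [inner_self_eq_norm_sq_to_K, hx]; simp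
  obtain ⟨a, ha⟩ := real_scalar_on hR (Submodule.span ℂ {x}) (by
    intro y hy
    obtain ⟨c, rfl⟩ := Submodule.mem_span_singleton.1 hy
    obtain ⟨d, hd⟩ := eigen_of_commute_po (h (po x x) (isSelfAdjoint_po x) (Commute.refl _))
    exact ⟨d, by rw [map_smul, hd, smul_comm]⟩)
  obtain ⟨b, hb⟩ := real_scalar_on hR (LinearMap.ker ((innerSL ℂ x : H →L[ℂ] ℂ) : H →ₗ[ℂ] ℂ)) (by
    intro y hy
    have hy' : inner ℂ x y = 0 := hy
    apply eigen_of_commute_po
    refine h (po y y) (isSelfAdjoint_po y) (Commute.symm ?_)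
    ext z
    change inner ℂ x (inner ℂ y z • y) • x = inner ℂ y (inner ℂ x z • x) • y
    rw [inner_smul_right, inner_smul_right, hy', ← inner_conj_symm y x, hy']
    simp)
  refine ⟨a - b, b, ?_⟩
  ext z
  have h1 : R x = (a : ℂ) • x := ha x (Submodule.mem_span_singleton_self x)
  have h2 : R (z - inner ℂ x z • x) = (b : ℂ) • (z - inner ℂ x z • x) := by
    apply hb
    change inner ℂ x (z - inner ℂ x z • x) = 0
    rw [inner_sub_right, inner_smul_right, hxx, mul_one, sub_self]
  have h3 : R z = R (inner ℂ x z • x) + R (z - inner ℂ x z • x) := by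
    rw [← map_add]; congr 1; abel
  rw [h3, h2, map_smul, h1]
  change _ = ((a - b : ℝ) : ℂ) • (inner ℂ x z • x) + (b : ℂ) • z
  push_cast
  module

end e

end PR
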