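import Pool.Agent.Helper26.PR.TK6
import Pool.Agent.Helper54.PR.TK5
import Pool.Agent.Helper55.PR.TK4B
import Pool.Agent.Helper8.PR.CD1

/-!
Offer PR-CD15 (MP_339e9c_an): surjections which preserve `sr (TS ± ST)` respect the properties
`dim ≥ 2` and `dim ≥ 3`.
-/

namespace PR

open ContinuousLinearMap

section

variable {X : Type*} [NormedAddCommGroup X] [NormedSpace ℂ X] [CompleteSpace X]
variable {Y : Type*} [NormedAddCommGroup Y] [NormedSpace ℂ Y] [CompleteSpace Y]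
variable {σ : ℂ}

omit [CompleteSpace X] in
theorem scalar_of_not_dim2 (hX : ¬ Dim2 X) (T : X →L[ℂ] X) :
    ∃ c : ℂ, T = c • (1 : X →L[ℂ] X) :=
  scalar_of_eigen_all T (fun x => by
    by_cases hx : x = 0
    · exact ⟨0, by simp [hx]⟩
    · exact dep_pair (fun h => hX ⟨_, h⟩) hx)

theorem sr_bra_scalar [Nontrivial X] (hσ : σ = 1 ∨ σ = -1) (c : ℂ)
    (hc : σ = 1 → sr (c • (1 : X →L[ℂ] X)) = 0) (S : X →L[ℂ] X) :
    sr (bra σ (c • (1 : X →L[ℂ] X)) S) = 0 := by
  have h0 : bra σ (c • (1 : X →L[ℂ] X)) S = 0 := by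
    rcases hσ with rfl | rfl
    · have h1 := hc rfl
      rw [sr_scalar, norm_eq_zero] at h1
      simp [bra, h1]
    · simp [bra]
  rw [h0, sr_zero]

/-- test for `dim ≥ 2` -/
def T2 (σ : ℂ) (X : Type*) [NormedAddCommGroup X] [NormedSpace ℂ X] : Prop :=
  ∃ T : X →L[ℂ] X, (σ = 1 → sr T = 0) ∧ ∃ S, sr (bra σ T S) ≠ 0

/-- test for `dim = 2` -/
def T3 (σ : ℂ) (X : Type*) [NormedAddCommGroup X] [NormedSpace ℂ X] : Prop :=
  ∃ T : X →L[ℂ] X, (σ = 1 → sr T = 0) ∧ (∃ S, sr (bra σ T S) ≠ 0) ∧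
    ∀ S1 S2, (σ = 1 → sr S1 = 0 ∧ sr S2 = 0) → sr (bra σ T S1) = 0 → sr (bra σ T S2) = 0 →
      sr (bra σ S1 S2) = 0

omit [CompleteSpace X] in
theorem dim2_basis (hX : Dim2 X) : ∃ (v0 v1 : X) (f g : X →L[ℂ] ℂ),
    LinearIndependent ℂ ![v0, v1] ∧ f v0 = 0 ∧ f v1 = 1 ∧ g v0 = 1 ∧ g v1 = 0 := by
  obtain ⟨v, hv⟩ := hX
  have hv' : LinearIndependent ℂ ![v 0, v 1] := by
    convert hv using 1
    ext i
    fin_cases i <;> rfl
  obtain ⟨f, hf⟩ := exists_dual_fin hv' ![0, 1]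
  obtain ⟨g, hg⟩ := exists_dual_fin hv' ![1, 0]
  exact ⟨v 0, v 1, f, g, hv', by simpa using hf 0, by simpa using hf 1, by simpa using hg 0,
    by simpa using hg 1⟩

theorem test2 (hσ : σ = 1 ∨ σ = -1) {v0 v1 : X} {f g : X →L[ℂ] ℂ}
    (hf0 : f v0 = 0) (hf1 : f v1 = 1) (hg0 : g v0 = 1) (hg1 : g v1 = 0) :
    sr (rk v0 f) = 0 ∧ sr (bra σ (rk v0 f) (rk v1 g)) ≠ 0 := by
  refine ⟨by rw [sr_rk, hf0, norm_zero], ?_⟩
  rw [sr_bra_flag hσ _ hg1, rk_apply, hf1, one_smul, hg0, norm_one]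
  exact one_ne_zero

theorem dim2_iff [Nontrivial X] (hσ : σ = 1 ∨ σ = -1) : Dim2 X ↔ T2 σ X := by
  constructor
  · intro hX
    obtain ⟨v0, v1, f, g, -, hf0, hf1, hg0, hg1⟩ := dim2_basis hX
    have h := test2 (X := X) hσ hf0 hf1 hg0 hg1
    exact ⟨rk v0 f, fun _ => h.1, rk v1 g, h.2⟩
  · rintro ⟨T, hT, S, hS⟩
    by_contra hX
    obtain ⟨c, rfl⟩ := scalar_of_not_dim2 hX T
    exact hS (sr_bra_scalar hσ c hT S)

/-- In dimension two the test succeeds. -/
theorem t3_of_dim (hσ : σ = 1 ∨ σ = -1) (hX : Dim2 X) (hX3 : ¬ Dim3 X) : T3 σ X := by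
  obtain ⟨v0, v1, f, g, hv, hf0, hf1, hg0, hg1⟩ := dim2_basis hX
  have h := test2 (X := X) hσ hf0 hf1 hg0 hg1
  -- every vector is a combination
  have hcomb : ∀ x : X, x = g x • v0 + f x • v1 := by
    intro x
    by_contra hne
    apply hX3
    refine ⟨![v0, v1, x], ?_⟩
    rw [Fintype.linearIndependent_iff]
    intro c hc
    rw [Fin.sum_univ_three] at hc
    simp only [Matrix.cons_val_zero, Matrix.cons_val_one, Matrix.cons_val] at hc
    have hx : c 2 = 0 := by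
      by_contra h2
      apply hne
      have e1 : g (c 0 • v0 + c 1 • v1 + c 2 • x) = 0 := by rw [hc, map_zero]
      have e2 : f (c 0 • v0 + c 1 • v1 + c 2 • x) = 0 := by rw [hc, map_zero]
      simp only [map_add, map_smul, hg0, hg1, hf0, hf1, smul_eq_mul, mul_one, mul_zero, add_zero,
        zero_add] at e1 e2
      have e3 : c 0 = - (c 2 * g x) := by linear_combination e1
      have e4 : c 1 = - (c 2 * f x) := by linear_combination e2
      have e5 : c 2 • (x - (g x • v0 + f x • v1)) = 0 := by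
        rw [smul_sub, smul_add, smul_smul, smul_smul, ← neg_neg (c 2 * g x), ← neg_neg (c 2 * f x),
          ← e3, ← e4, neg_smul, neg_smul, ← hc]
        abel
      rcases smul_eq_zero.1 e5 with e6 | e6
      · exact absurd e6 h2
      · exact sub_eq_zero.1 e6
    have h01 := LinearIndependent.pair_iff.1 hv (c 0) (c 1) (by simpa [hx] using hc)
    intro i
    fin_cases i
    · exact h01.1
    · exact h01.2
    · exact hx
  refine ⟨rk v0 f, fun _ => h.1, ⟨rk v1 g, h.2⟩, ?_⟩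
  intro S1 S2 hS h1 h2
  -- `f (S v0) = 0`
  have hfS : ∀ S : X →L[ℂ] X, sr (bra σ (rk v0 f) S) = 0 → f (S v0) = 0 := by
    intro S hS
    rw [← sr_bra_comm hσ, sr_bra_flag hσ S hf0, norm_eq_zero] at hS
    exact hS
  have hf1' := hfS S1 h1
  have hf2' := hfS S2 h2
  have hS1 : S1 v0 = g (S1 v0) • v0 := by
    conv_lhs => rw [hcomb (S1 v0), hf1', zero_smul, add_zero]
  have hS2 : S2 v0 = g (S2 v0) • v0 := by
    conv_lhs => rw [hcomb (S2 v0), hf2', zero_smul, add_zero]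
  -- eigenvalues vanish if `σ = 1`
  have hev : ∀ S : X →L[ℂ] X, sr S = 0 → f (S v0) = 0 → g (S v0) = 0 ∧ f (S v1) = 0 := by
    intro S hS0 hSf
    have e0 : S v0 = g (S v0) • v0 := by
      conv_lhs => rw [hcomb (S v0), hSf, zero_smul, add_zero]
    have hv0 : v0 ≠ 0 := by
      intro h0
      rw [h0, map_zero] at hg0
      exact zero_ne_one hg0
    have e1 : g (S v0) = 0 := by
      have := norm_le_sr hv0 e0
      rw [hS0] at this
      exact norm_le_zero_iff.1 this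
    refine ⟨e1, ?_⟩
    by_contra hμ
    rw [e1, zero_smul] at e0
    have e2 : S (v1 + (g (S v1) / f (S v1)) • v0) =
        f (S v1) • (v1 + (g (S v1) / f (S v1)) • v0) := by
      rw [map_add, map_smul, e0, smul_zero, add_zero, smul_add, smul_smul,
        mul_div_cancel₀ _ hμ, add_comm, ← hcomb]
    have hne : v1 + (g (S v1) / f (S v1)) • v0 ≠ 0 := by
      intro h0
      have := congrArg f h0
      simp only [map_add, map_smul, hf1, hf0, smul_eq_mul, mul_zero, add_zero, map_zero] at this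
      exact one_ne_zero this
    have := norm_le_sr hne e2
    rw [hS0] at this
    exact hμ (norm_le_zero_iff.1 this)
  have key : (1 + σ) * (g (S1 v0) * g (S2 v0)) = 0 ∧ (1 + σ) * (f (S1 v1) * f (S2 v1)) = 0 := by
    rcases hσ with rfl | rfl
    · obtain ⟨a1, a2⟩ := hS rfl
      have b1 := hev S1 a1 hf1'
      have b2 := hev S2 a2 hf2'
      rw [b1.1, b1.2, zero_mul, zero_mul, mul_zero]
      exact ⟨rfl, rfl⟩
    · simp
  have w0 : bra σ S1 S2 v0 = 0 := by
    have e : bra σ S1 S2 v0 = ((1 + σ) * (g (S1 v0) * g (S2 v0))) • v0 := by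
      change S1 (S2 v0) + σ • S2 (S1 v0) = _
      rw [hS2, hS1, map_smul, map_smul, hS1, hS2]
      simp only [map_smul, smul_smul, hg0, smul_eq_mul, mul_one, ← add_smul]
      congr 1
      ring
    rw [e, key.1, zero_smul]
  have w1 : f (bra σ S1 S2 v1) = 0 := by
    have e : f (bra σ S1 S2 v1) = (1 + σ) * (f (S1 v1) * f (S2 v1)) := by
      change f (S1 (S2 v1) + σ • S2 (S1 v1)) = _
      rw [hcomb (S2 v1), hcomb (S1 v1)]
      simp only [map_add, map_smul, smul_eq_mul, hf1', hf2', mul_zero, zero_add, hf0, hf1, mul_one]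
      ring
    rw [e, key.2]
  have hW : bra σ S1 S2 = rk (bra σ S1 S2 v1) f := by
    ext x
    conv_lhs => rw [hcomb x, map_add, map_smul, map_smul, w0, smul_zero, zero_add]
    rfl
  rw [hW, sr_rk, w1, norm_zero]

omit [CompleteSpace X] in
theorem exists_notMem_span (hX : Dim3 X) (a b : X) : ∃ w, w ∉ Submodule.span ℂ {a, b} := by
  classical
  by_contra hne
  push Not at hne
  obtain ⟨v, hv⟩ := hX
  have hs : Submodule.span ℂ ((({a, b} : Finset X) : Set X)) = ⊤ := by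
    rw [eq_top_iff]
    intro w _
    rw [Finset.coe_pair]
    exact hne w
  have h1 := linearIndependent_le_span_finset v hv {a, b} hs
  have h2 : ({a, b} : Finset X).card ≤ 2 := Finset.card_le_two
  rw [Cardinal.mk_fin] at h1
  have h3 : 3 ≤ ({a, b} : Finset X).card := by exact_mod_cast h1
  omega

omit [CompleteSpace X] in
theorem exists_pair (hX : Dim3 X) (T : X →L[ℂ] X) (hT : ∀ c : ℂ, T ≠ c • (1 : X →L[ℂ] X)) :
    ∃ y z : X, z ∉ Submodule.span ℂ {y, T y} ∧ y ∉ Submodule.span ℂ {z, T z} := by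
  by_contra hneg
  push Not at hneg
  obtain ⟨y, hy⟩ : ∃ y, ∀ c : ℂ, T y ≠ c • y := by
    by_contra h
    push Not at h
    obtain ⟨c, hc⟩ := scalar_of_eigen_all T h
    exact hT c hc
  set M := Submodule.span ℂ {y, T y} with hM
  have hyM : y ∈ M := Submodule.subset_span (by simp)
  have hTyM : T y ∈ M := Submodule.subset_span (by simp)
  have hy0 : y ≠ 0 := by
    rintro rfl
    exact hy 0 (by simp)
  have h1 : ∀ w, w ∉ M → ∃ α β : ℂ, T w = α • w + β • y := by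
    intro w hw
    obtain ⟨a, b, hab⟩ := Submodule.mem_span_pair.1 (hneg y w hw)
    have hb : b ≠ 0 := by
      rintro rfl
      rw [zero_smul, add_zero] at hab
      have ha : a ≠ 0 := by
        rintro rfl
        rw [zero_smul] at hab
        exact hy0 hab.symm
      apply hw
      have : w = a⁻¹ • y := by rw [← hab, smul_smul, inv_mul_cancel₀ ha, one_smul]
      rw [this]
      exact M.smul_mem _ hyM
    refine ⟨-(b⁻¹ * a), b⁻¹, ?_⟩
    rw [← hab, smul_add, smul_smul, smul_smul, inv_mul_cancel₀ hb, one_smul, neg_smul]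
    abel
  obtain ⟨w, hw⟩ := exists_notMem_span hX y (T y)
  have hw' : ∀ (c : ℂ) (m : X), m ∈ M → c • w = m → c = 0 := by
    intro c m hm hc
    by_contra hc0
    apply hw
    have : w = c⁻¹ • m := by rw [← hc, smul_smul, inv_mul_cancel₀ hc0, one_smul]
    rw [this]
    exact M.smul_mem _ hm
  have hspan : ∀ z, T z ∈ Submodule.span ℂ {z, y} := by
    intro z
    by_cases hz : z ∈ M
    · have hzw : z + w ∉ M := fun h => hw ((M.add_mem_iff_right hz).1 h)
      have hzw' : z - w ∉ M := fun h => hw ((M.sub_mem_iff_right hz).1 h)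
      obtain ⟨α, β, e⟩ := h1 w hw
      obtain ⟨α1, β1, e1⟩ := h1 (z + w) hzw
      obtain ⟨α2, β2, e2⟩ := h1 (z - w) hzw'
      rw [map_add] at e1
      rw [map_sub] at e2
      have f1 : (2 : ℂ) • T z = (α1 + α2) • z + (α1 - α2) • w + (β1 + β2) • y := by
        have : (2 : ℂ) • T z = (T z + T w) + (T z - T w) := by rw [two_smul]; abel
        rw [this, e1, e2]
        module
      have f2 : (2 * α - (α1 + α2)) • w = (α1 - α2) • z + (β1 - β2 - 2 * β) • y := by
        have : (2 : ℂ) • T w = (T z + T w) - (T z - T w) := by rw [two_smul]; abel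
        rw [e1, e2, e] at this
        have h3 : (2 * α - (α1 + α2)) • w - ((α1 - α2) • z + (β1 - β2 - 2 * β) • y) =
            (2 : ℂ) • (α • w + β • y) -
              (α1 • (z + w) + β1 • y - (α2 • (z - w) + β2 • y)) := by module
        rw [← sub_eq_zero, h3, this, sub_self]
      have g1 : 2 * α - (α1 + α2) = 0 :=
        hw' _ _ (M.add_mem (M.smul_mem _ hz) (M.smul_mem _ hyM)) f2
      rw [g1, zero_smul] at f2
      have g2 : α1 - α2 = 0 := by
        by_contra hne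
        have hzy : z = (-((α1 - α2)⁻¹ * (β1 - β2 - 2 * β))) • y := by
          have h4 : (α1 - α2)⁻¹ • ((α1 - α2) • z + (β1 - β2 - 2 * β) • y) = 0 := by
            rw [← f2, smul_zero]
          rw [smul_add, smul_smul, inv_mul_cancel₀ hne, one_smul, smul_smul] at h4
          rw [neg_smul]
          exact eq_neg_of_add_eq_zero_left h4
        have hTz : T z ∈ M := by
          rw [hzy, map_smul]
          exact M.smul_mem _ hTyM
        apply hne
        refine hw' _ ((2 : ℂ) • T z - (α1 + α2) • z - (β1 + β2) • y)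
          (M.sub_mem (M.sub_mem (M.smul_mem _ hTz) (M.smul_mem _ hz)) (M.smul_mem _ hyM)) ?_
        rw [f1]
        abel
      rw [g2, zero_smul, add_zero] at f1
      rw [Submodule.mem_span_pair]
      refine ⟨(α1 + α2) / 2, (β1 + β2) / 2, ?_⟩
      have h5 : (2 : ℂ) • (((α1 + α2) / 2) • z + ((β1 + β2) / 2) • y) = (2 : ℂ) • T z := by
        rw [f1]
        module
      exact smul_right_injective X two_ne_zero h5
    · obtain ⟨α, β, e⟩ := h1 z hz
      rw [e, Submodule.mem_span_pair]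
      exact ⟨α, β, rfl⟩
  obtain ⟨l, f, hf⟩ := scalar_mod_vector T y hX hspan
  refine hy (l + f y) ?_
  conv_lhs => rw [hf]
  rw [add_smul]
  rfl

/-- In dimension at least three the test fails. -/
theorem not_t3_of_dim3 [Nontrivial X] (hσ : σ = 1 ∨ σ = -1) (hX : Dim3 X) : ¬ T3 σ X := by
  rintro ⟨T, hT, ⟨S, hS⟩, h⟩
  have hsc : ∀ c : ℂ, T ≠ c • (1 : X →L[ℂ] X) := by
    rintro c rfl
    exact hS (sr_bra_scalar hσ c hT S)
  obtain ⟨y, z, hz, hy⟩ := exists_pair hX T hsc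
  have hr : ∀ a b : X, Set.range ![a, b] = {a, b} := fun a b => by simp [Set.pair_comm]
  obtain ⟨g, hg, hgz⟩ := exists_dual_sep (v := ![y, T y]) (w := z) (by rwa [hr])
  obtain ⟨k, hk, hky⟩ := exists_dual_sep (v := ![z, T z]) (w := y) (by rwa [hr])
  have hg0 : g y = 0 := by simpa using hg 0
  have hg1 : g (T y) = 0 := by simpa using hg 1
  have hk0 : k z = 0 := by simpa using hk 0
  have hk1 : k (T z) = 0 := by simpa using hk 1
  have h1 := h (rk y g) (rk z k)
    (fun _ => ⟨by rw [sr_rk, hg0, norm_zero], by rw [sr_rk, hk0, norm_zero]⟩)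
    (by rw [sr_bra_flag hσ T hg0, hg1, norm_zero])
    (by rw [sr_bra_flag hσ T hk0, hk1, norm_zero])
  rw [sr_bra_flag hσ _ hk0, rk_apply, hgz, one_smul, hky, norm_one] at h1
  exact one_ne_zero h1

omit [CompleteSpace X] in
theorem t2_of_t3 (h : T3 σ X) : T2 σ X := by
  obtain ⟨T, hT, hS, -⟩ := h
  exact ⟨T, hT, hS⟩

omit [CompleteSpace X] in
theorem dim2_of_dim3 (hX : Dim3 X) : Dim2 X := by
  obtain ⟨v, hv⟩ := hX
  exact ⟨v ∘ Fin.castSucc, hv.comp _ (Fin.castSucc_injective 2)⟩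

theorem sr_map {φ : (X →L[ℂ] X) → (Y →L[ℂ] Y)}
    (h : ∀ T S, sr (bra σ (φ T) (φ S)) = sr (bra σ T S)) (hσ : σ = 1) (T : X →L[ℂ] X) :
    sr (φ T) = sr T := by
  subst hσ
  have h1 := h T T
  rw [sr_bra_self, sr_bra_self] at h1
  have h2 : sr (φ T) ^ 2 = sr T ^ 2 := by linarith
  exact (pow_left_inj₀ (sr_nonneg _) (sr_nonneg _) two_ne_zero).1 h2

theorem t2_map {φ : (X →L[ℂ] X) → (Y →L[ℂ] Y)} (hs : Function.Surjective φ)
    (h : ∀ T S, sr (bra σ (φ T) (φ S)) = sr (bra σ T S)) : T2 σ X ↔ T2 σ Y := by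
  constructor
  · rintro ⟨T, hT, S, hS⟩
    exact ⟨φ T, fun hσ => by rw [sr_map h hσ, hT hσ], φ S, by rwa [h]⟩
  · rintro ⟨T', hT, S', hS⟩
    obtain ⟨T, rfl⟩ := hs T'
    obtain ⟨S, rfl⟩ := hs S'
    exact ⟨T, fun hσ => by rw [← sr_map h hσ, hT hσ], S, by rwa [← h]⟩

theorem t3_map {φ : (X →L[ℂ] X) → (Y →L[ℂ] Y)} (hs : Function.Surjective φ)
    (h : ∀ T S, sr (bra σ (φ T) (φ S)) = sr (bra σ T S)) : T3 σ X ↔ T3 σ Y := by
  constructor
  · rintro ⟨T, hT, ⟨S, hS⟩, h3⟩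
    refine ⟨φ T, fun hσ => by rw [sr_map h hσ, hT hσ], ⟨φ S, by rwa [h]⟩, ?_⟩
    intro S1' S2' h12 e1 e2
    obtain ⟨S1, rfl⟩ := hs S1'
    obtain ⟨S2, rfl⟩ := hs S2'
    rw [h] at e1 e2 ⊢
    refine h3 S1 S2 (fun hσ => ?_) e1 e2
    have := h12 hσ
    rwa [sr_map h hσ, sr_map h hσ] at this
  · rintro ⟨T', hT, ⟨S', hS⟩, h3⟩
    obtain ⟨T, rfl⟩ := hs T'
    obtain ⟨S, rfl⟩ := hs S'
    refine ⟨T, fun hσ => by rw [← sr_map h hσ, hT hσ], ⟨S, by rwa [← h]⟩, ?_⟩
    intro S1 S2 h12 e1 e2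
    rw [← h] at e1 e2 ⊢
    exact h3 (φ S1) (φ S2) (fun hσ => by rw [sr_map h hσ, sr_map h hσ]; exact h12 hσ) e1 e2

theorem dim_iff (hσ : σ = 1 ∨ σ = -1) [Nontrivial X] [Nontrivial Y]
    {φ : (X →L[ℂ] X) → (Y →L[ℂ] Y)} (hs : Function.Surjective φ)
    (h : ∀ T S, sr (bra σ (φ T) (φ S)) = sr (bra σ T S)) :
    (Dim2 X ↔ Dim2 Y) ∧ (Dim3 X ↔ Dim3 Y) := by
  have h2 : Dim2 X ↔ Dim2 Y := by
    rw [dim2_iff (X := X) hσ, dim2_iff (X := Y) hσ]
    exact t2_map hs h
  refine ⟨h2, ?_, ?_⟩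
  · intro hX
    by_contra hY
    exact not_t3_of_dim3 hσ hX ((t3_map hs h).2 (t3_of_dim hσ (h2.1 (dim2_of_dim3 hX)) hY))
  · intro hY
    by_contra hX
    exact not_t3_of_dim3 hσ hY ((t3_map hs h).1 (t3_of_dim hσ (h2.2 (dim2_of_dim3 hY)) hX))

end

end PR
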