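import Pool.Agent.Helper44.PR.TK3
import Pool.Agent.Helper54.PR.TK5
import Pool.Agent.Helper55.PR.TK4B
import Pool.Agent.Helper28.PR.AB1

/-!
Offer PR-AB3 (MP_339e9c_an): the second order identities from rank two tests.
-/

namespace PR

open ContinuousLinearMap Polynomial

section

variable {X : Type*} [NormedAddCommGroup X] [NormedSpace ℂ X] [CompleteSpace X]

/-- the nondegenerate case -/
theorem ab_id2_core {n : ℕ} (hn : n = 1 ∨ n = 2) {A B : X →L[ℂ] X} {C : ℂ → (X →L[ℂ] X)}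
    (h : ∀ S, PhaseFamR (sr (A * S ^ n)) (sr (B * S ^ n)) (fun s => sr (C s * S ^ n)))
    {k : ℂ → ℂ} (hk : ∀ s s', ‖k s - k s'‖ = ‖s - s'‖)
    (hC : ∀ s, ∃ p : ℂ, ‖p‖ = 1 ∧ C s = p • (A + k s • B))
    (y1 y2 : X) (g1 g2 : X →L[ℂ] ℂ) (hG : g1 y1 * g2 y2 - g1 y2 * g2 y1 ≠ 0) :
    (g1 (B y1) + g2 (B y2)) *
        (g1 (A y1) * g2 (B y2) + g1 (B y1) * g2 (A y2) - g1 (A y2) * g2 (B y1)
          - g1 (B y2) * g2 (A y1)) =
      2 * (g1 (A y1) + g2 (A y2)) * (g1 (B y1) * g2 (B y2) - g1 (B y2) * g2 (B y1)) ∧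
    (g1 (A y1) + g2 (A y2)) *
        (g1 (A y1) * g2 (B y2) + g1 (B y1) * g2 (A y2) - g1 (A y2) * g2 (B y1)
          - g1 (B y2) * g2 (A y1)) =
      2 * (g1 (B y1) + g2 (B y2)) * (g1 (A y1) * g2 (A y2) - g1 (A y2) * g2 (A y1)) := by
  obtain ⟨S, hS⟩ := exists_root hn y1 y2 g1 g2 hG
  obtain ⟨a, b, -, -, hab'⟩ := h S
  have hab : ∀ s, sr (C s * S ^ n) = ‖a + s * b‖ := hab'
  refine quad_lin hk (a := a) (b := b) (fun s => ?_) (fun s => ?_)
  · obtain ⟨p, hp, hCs⟩ := hC s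
    have h1 := (det_le_sr (C s) y1 y2 g1 g2).1
    rw [← hS, hab s] at h1
    refine le_trans (le_of_eq ?_) h1
    rw [hCs]
    simp only [smul_apply, add_apply, map_smul, map_add, smul_eq_mul]
    rw [show (p * (g1 (A y1) + k s * g1 (B y1))) * (p * (g2 (A y2) + k s * g2 (B y2))) -
      (p * (g1 (A y2) + k s * g1 (B y2))) * (p * (g2 (A y1) + k s * g2 (B y1))) =
      p ^ 2 * ((g1 (A y1) * g2 (A y2) - g1 (A y2) * g2 (A y1)) +
        (g1 (A y1) * g2 (B y2) + g1 (B y1) * g2 (A y2) - g1 (A y2) * g2 (B y1)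
          - g1 (B y2) * g2 (A y1)) * k s +
        (g1 (B y1) * g2 (B y2) - g1 (B y2) * g2 (B y1)) * k s ^ 2) by ring]
    rw [norm_mul, norm_pow, hp, one_pow, one_mul]
  · obtain ⟨p, hp, hCs⟩ := hC s
    have h1 := (det_le_sr (C s) y1 y2 g1 g2).2
    rw [← hS, hab s] at h1
    refine le_trans (le_of_eq ?_) h1
    rw [hCs]
    simp only [smul_apply, add_apply, map_smul, map_add, smul_eq_mul]
    rw [show p * (g1 (A y1) + k s * g1 (B y1)) + p * (g2 (A y2) + k s * g2 (B y2)) =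
      p * ((g1 (A y1) + g2 (A y2)) + (g1 (B y1) + g2 (B y2)) * k s) by ring]
    rw [norm_mul, hp, one_mul]

theorem quad_ne_zero (a b c : ℂ) : ((Polynomial.X + C a) * (Polynomial.X + C b) - C c : ℂ[X]) ≠ 0 := by
  intro h
  have h0 := congrArg (Polynomial.eval 0) h
  have h1 := congrArg (Polynomial.eval 1) h
  have h2 := congrArg (Polynomial.eval (-1)) h
  simp at h0 h1 h2
  have : (2 : ℂ) = 0 := by linear_combination h1 + h2 - 2 * h0
  exact two_ne_zero this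

/-- AB3. -/
theorem ab_id2 {n : ℕ} (hn : n = 1 ∨ n = 2) {A B : X →L[ℂ] X} {C : ℂ → (X →L[ℂ] X)}
    (h : ∀ S, PhaseFamR (sr (A * S ^ n)) (sr (B * S ^ n)) (fun s => sr (C s * S ^ n)))
    {k : ℂ → ℂ} (hk : ∀ s s', ‖k s - k s'‖ = ‖s - s'‖)
    (hC : ∀ s, ∃ p : ℂ, ‖p‖ = 1 ∧ C s = p • (A + k s • B)) : Id2 A B := by
  intro y1 y2 g1 g2 hy
  obtain ⟨e1, he1⟩ := exists_dual_fin hy ![1, 0]
  obtain ⟨e2, he2⟩ := exists_dual_fin hy ![0, 1]
  have e11 : e1 y1 = 1 := by simpa using he1 0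
  have e12 : e1 y2 = 0 := by simpa using he1 1
  have e21 : e2 y1 = 0 := by simpa using he2 0
  have e22 : e2 y2 = 1 := by simpa using he2 1
  set P : ℂ[X] := (Polynomial.X + Polynomial.C (g1 y1)) * (Polynomial.X + Polynomial.C (g2 y2)) -
    Polynomial.C (g1 y2 * g2 y1) with hP
  have hP0 : P ≠ 0 := quad_ne_zero _ _ _
  have hfin : {x | P.IsRoot x}.Finite := Polynomial.finite_setOfPred_isRoot hP0
  have hdense : Dense {x | P.IsRoot x}ᶜ := hfin.countable.dense_compl ℂ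
  have key := fun ε (hε : ε ∈ {x | P.IsRoot x}ᶜ) =>
    ab_id2_core hn h hk hC y1 y2 (g1 + ε • e1) (g2 + ε • e2) (by
      intro h0
      apply hε
      simp only [add_apply, smul_apply, smul_eq_mul, e11, e12, e21, e22] at h0
      simp only [Set.mem_ofPred_eq, Polynomial.IsRoot.def, hP, Polynomial.eval_sub,
        Polynomial.eval_mul, Polynomial.eval_add, Polynomial.eval_X, Polynomial.eval_C]
      linear_combination h0)
  simp only [add_apply, smul_apply, smul_eq_mul] at key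
  constructor
  · have h1 := Continuous.ext_on hdense (by fun_prop) (by fun_prop) fun ε hε => (key ε hε).1
    simpa using congrFun h1 0
  · have h1 := Continuous.ext_on hdense (by fun_prop) (by fun_prop) fun ε hε => (key ε hε).2
    simpa using congrFun h1 0

end

end PR
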